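import Pool.Agent.H16.Glauber1

set_option autoImplicit false

open Pool.Agent.H16.Glauber

namespace Pool.Agent.Results.MP_a221c1_pr.Disproof

/-- There are a finite graph `G` and a number of colours `q ≥ Δ(G) + 2` with
`t_G(q + 1) > t_G(q)`. -/
theorem result : ∃ (n : ℕ) (G : SimpleGraph (Fin n)) (_ : DecidableRel G.Adj) (q : ℕ),
    G.maxDegree + 2 ≤ q ∧ tmix G q < tmix G (q + 1) := by
  refine ⟨2, ⊥, inferInstance, 2, ?_, ?_⟩
  · rw [SimpleGraph.maxDegree_bot_eq_zero]
  · exact lt_of_le_of_lt tmix_two tmix_three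

end Pool.Agent.Results.MP_a221c1_pr.Disproof
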